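import Pool.Agent.Q67.TP.AS

/-!
# MP_77d3f5_ag: the de Rham-Betti classes with algebraic coefficients, the zero-one law
-/

set_option autoImplicit false

open CategoryTheory AlgebraicGeometry

universe u

namespace Pool.Agent.Results.MP_77d3f5_ag.AlgebraicCoefficientsZeroOne

open Pool.Agent.H914
open Pool.Agent.Q67.TP.S

/-- Let `S` be a theory consisting of a Hodge theory (a Weil cohomology theory with rational
coefficients with a Hodge decomposition of its cohomology with complex coefficients) and of the
algebraic de Rham cohomology over the field `Q̄` of the algebraic numbers, a graded subspace of the
cohomology with complex coefficients which is stable under products and pull-backs and contains the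
classes `(2 π i) ^ j cl(z)`. The de Rham-Betti classes with algebraic coefficients on `X` are the
classes `x` which are combinations with coefficients in `Q̄` of rational classes of degree `2 j` such
that `(2 π i) ^ j x` lies in the algebraic de Rham cohomology. Let `B` be the rational classes which
are both Hodge classes and de Rham-Betti classes. Let `X` be such that a polarisation of the
cohomology of `X` is given by classes in `B` (this is always the case).

Then there is `N` in `{1, ∞}` such that the quotients of the dimension of the space of the de
Rham-Betti classes with algebraic coefficients on `X^n` by the dimension of the space of the classes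
in `B` converge to `N`; and `N = 1` if and only if all de Rham-Betti classes with algebraic
coefficients on all powers of `X` are linear combinations of classes in `B`. So either this is the
case, or the proportion of the dimension of the space of the classes in `B` tends to zero. If the
transcendence degree of the field of the periods of `X` is `lieDim B X + 1`, its maximal value, then
`N = 1`. -/
theorem result {k : Type u} [Field k] {𝒱 : VarClass k} {ops : CycleOps 𝒱} (S : Theory ops)
    (X : 𝒱.Obj) [Nontrivial (RH S.T X)] (u : ROp S.T X)
    (hu : PolarisedBy (meet (hodge S.T) (drb S)) X u) :
    ∃ N : ℕ∞, LawA S (meet (hodge S.T) (drb S)) X N ∧ (N = 1 ∨ N = ⊤) ∧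
      (trdegOf (periods S X) = (lieDim (meet (hodge S.T) (drb S)) X + 1 : ℕ) → N = 1) :=
  algebraic_zero_one S X u hu

end Pool.Agent.Results.MP_77d3f5_ag.AlgebraicCoefficientsZeroOne
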