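import Pool.Agent.Q193.LT.Sums
import Pool.Agent.Q193.LT.Crit
import Pool.Agent.Q193.LT.Cyc

/-!
# The Grothendieck period conjecture, the standard conjectures and tripartite hypergraphs

Let `K ⊂ ℂ` be the field of algebraic numbers, and let `M` be the category of André's motives for
motivated cycles over `K`, a semisimple Tannakian category with Tate twists `N ↦ N(a)`. For a separated
scheme `X` of finite type over `ℚ` let `D.H i X` be the object of `M` given by the graded object of the
weight filtration of the cohomology with compact supports `H^i_c(X_K)`; for smooth projective `X` it is
the motive `h^i(X_K)`. For an object `N` of `M` let `dense N` say that the comparison isomorphism between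
the de Rham realization and the Betti realization of `N` is Zariski dense in the torsor of periods of
`N` (the torsor under the motivic Galois group of `N`). This property is inherited by direct factors.

For `n, i ∈ ℤ` let `A^{n,i}(X) = H^i(A^n(W(X_K)))` be the groups of algebraic cycles of codimension `n`
modulo homological equivalence, with rational coefficients, of the weight complex `W(X_K)` of
Gillet and Soulé, and let `B^{n,i}(X)` be the group of the motivated classes in the pure Hodge structure
`Gr^W_{2n} H^{2n+i}_c(X_K)(n)`. The cycle class map is a map `A^{n,i}(X) → B^{n,i}(X)`. For a smooth
projective variety `Y` over `ℚ` the groups for `i ≠ 0` are zero and `A^{n,0}(Y) → B^{n,0}(Y)` is the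
inclusion of the algebraic classes in `H^{2n}(Y_K, ℚ(n))` in the motivated classes. `BijAll C X` says
that these maps are isomorphisms for all `n` and `i`.

If all motivated classes are algebraic (this is equivalent to the standard conjecture B for all
varieties), then the torsor `Ω^mot_X` of question Q1 is the torsor of periods of the motive of `X`. So
Q1 and the standard conjecture together say: all motivated classes are algebraic, and `dense` is true
for all motives of smooth projective varieties over `K`, or what is the same, for all finite direct sums
of Tate twists of motives `h^i(Y_K)`, `Y` smooth projective over `ℚ`.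

For a finite set `H` of triples `(i, j, l)` (a tripartite hypergraph) let `X_H` be the smooth affine
cubic hypersurface `∑_{(i, j, l) ∈ H} x_i y_j z_l = 1` over `ℚ`.

**Theorem.** (1) All motivated classes on smooth projective varieties over `K` are algebraic if and only
if the cycle class maps `A^{n,i}(X_H) → B^{n,i}(X_H)` are isomorphisms for all finite sets `H` of triples
and all `n`, `i`.

(2) The comparison isomorphism is dense in the torsor of periods for all motives over `K` if and only if
this is true for all finite direct sums of Tate motives and of Tate twists of motives
`Gr^W H^i_c((X_H)_K)`.

(3) The Grothendieck period conjecture and the standard conjecture B are true for all smooth projective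
varieties over `K` if and only if the properties in (1) and (2) are true for the hypersurfaces `X_H`.
-/

set_option autoImplicit false

open CategoryTheory CategoryTheory.Limits AlgebraicGeometry Pool.Agent.Y116.UV Pool.Agent.Z125.UN
  Pool.Agent.Q193.LT

universe w v u

namespace Pool.Agent.Results.MP_77d3f5_ag.CyclesAndTorsors

/-- The maps `A^{n,i}(Y) → B^{n,i}(Y)` are bijective for all smooth projective `Y` over `ℚ`. -/
def AllProjective (C : PairData.{w} ℚ (ℤ × ℤ) ℚ) : Prop :=
  ∀ Y : Sch ℚ, SmoothProj Y → BijAll C Y

/-- The maps `A^{n,i}(X_H) → B^{n,i}(X_H)` are bijective for all finite sets `H` of triples. -/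
def AllHypergraphs (C : PairData.{w} ℚ (ℤ × ℤ) ℚ) : Prop :=
  ∀ (a b c : ℕ) (H : Finset (Fin a × Fin b × Fin c)), BijAll C (tripS ℚ H)

/-- The property `dense` is inherited by direct factors. -/
def Inherited {M : Type u} [Category.{v} M] (dense : M → Prop) : Prop :=
  ∀ {N N' : M} (i : N ⟶ N') (r : N' ⟶ N), i ≫ r = 𝟙 N → dense N' → dense N

/-- The property `dense` is true for all finite direct sums of Tate twists of motives of smooth
projective varieties. -/
def DenseProjective {M : Type u} [Category.{v} M] [Abelian M] (D : CompactData ℚ M)
    (dense : M → Prop) : Prop := SumsHave D (OfProjAll D) dense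

/-- The property `dense` is true for all finite direct sums of Tate motives and of Tate twists of motives
of the hypersurfaces `X_H`. -/
def DenseHypergraphs {M : Type u} [Category.{v} M] [Abelian M] (D : CompactData ℚ M)
    (dense : M → Prop) : Prop := SumsHave D (OfGraphs D) dense

/-- **The period conjecture, the standard conjectures and tripartite hypergraphs.** See the explanations
above. The hypothesis `hk` is Hironaka's theorem for the field of rational numbers. -/
theorem result {M : Type u} [Category.{v} M] [Abelian M] {D : CompactData ℚ M}
    (h : IsMotives D) {dense : M → Prop} (hdense : Inherited dense)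
    (hk : Hironaka ℚ) {C : PairData.{w} ℚ (ℤ × ℤ) ℚ} (hC : IsWeightPair C)
    (point : BijAll C (aff ℚ ℚ)) :
    (AllProjective C ↔ AllHypergraphs C) ∧
    (DenseProjective D dense ↔ DenseHypergraphs D dense) ∧
    (AllProjective C ∧ DenseProjective D dense ↔ AllHypergraphs C ∧ DenseHypergraphs D dense) := by
  have e1 : AllProjective C ↔ AllHypergraphs C := cyc_graph hk hC point frac_rat
  have e2 : DenseProjective D dense ↔ DenseHypergraphs D dense :=
    sums_graph_iff h.compact h.generated h.semisimple hdense frac_rat
  exact ⟨e1, e2, and_congr e1 e2⟩

end Pool.Agent.Results.MP_77d3f5_ag.CyclesAndTorsors
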