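import Pool.Agent.Q67.TP.LFinal

/-!
# MP_77d3f5_ag: algebraic classes among the Hodge and de Rham-Betti classes, the fourth power
-/

set_option autoImplicit false

open CategoryTheory AlgebraicGeometry

universe u

namespace Pool.Agent.Results.MP_77d3f5_ag.FourthPowerPeriods

open Pool.Agent.H914
open Pool.Agent.Q67.TP.S

/-- Let `S` be a theory consisting of a Hodge theory (a Weil cohomology theory with rational
coefficients with a Hodge decomposition of its cohomology with complex coefficients) and of the
algebraic de Rham cohomology over the field of the algebraic numbers, a graded subspace of the
cohomology with complex coefficients which is stable under products and pull-backs and contains the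
classes `(2 π i) ^ j cl(z)`. Let `X` be such that a polarisation of the cohomology of `X` and the
projector to the odd cohomology are given by classes of algebraic cycles on `X × X` (this is the
case if the Lefschetz standard conjecture holds for `X`). Let `B` be the classes which are both
Hodge classes and de Rham-Betti classes. Then there is `N` in `{1, 2, ..., ∞}` such that the
quotients of the dimension of the space of the classes in `B` on `X^n` by the dimension of the space
of the algebraic classes converge to `N`, and

* `N = 1` if and only if all classes in `B` on all powers of `X` are algebraic (linear combinations
  of classes of algebraic cycles); otherwise asymptotically at most one half of them are; if `N` is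
  finite, then `N - 1` classes in `B` generate all of them over the algebraic classes;
* `N` is finite if and only if all operators on the cohomology of `X` which kill (as derivations)
  the algebraic classes on all powers of `X`, kill the classes in `B` on all powers; and if and only
  if they kill the classes in `B` on `X^4` and those of them which are in the centre of the algebra
  of the correspondences given by `B` kill the classes in `B` on all powers;
* if the classes in `B` on `X^4` are algebraic and no nonzero element of the centre of the algebra
  of the algebraic correspondences is skew-symmetric, then `N` is finite;
* the transcendence degree of the field of the periods of `X` is at most the dimension of the Lie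
  algebra of the operators which kill all algebraic classes on all powers of `X`, plus one (the
  dimension of the motivic torsor of periods); if it is equal to this number, then `N` is finite
  and all de Rham-Betti classes on all powers of `X` are Hodge classes. -/
theorem result {k : Type u} [Field k] {𝒱 : VarClass k} {ops : CycleOps 𝒱} (S : Theory ops)
    (X : 𝒱.Obj) [Nontrivial (RH S.T X)] (u : ROp S.T X)
    (hu : PolarisedBy (alg S.T) X u) (ho : OddIn (alg S.T) X) :
    ∃ N : ℕ∞, Law (meet (hodge S.T) (drb S)) (alg S.T) X N ∧
      FourFor (meet (hodge S.T) (drb S)) (alg S.T) X N ∧
      trdegOf (periods S X) ≤ (lieDim (alg S.T) X + 1 : ℕ) ∧
      (trdegOf (periods S X) = (lieDim (alg S.T) X + 1 : ℕ) →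
        N ≠ ⊤ ∧ Sub (drb S) (hodge S.T) X) :=
  law_both S X (alg S.T) (alg_system S) u hu ho

end Pool.Agent.Results.MP_77d3f5_ag.FourthPowerPeriods
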