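import Pool.Agent.Q311.MV.Spec

/-!
# Relations between the periods at almost all algebraic points of an arbitrary family over a base of any dimension are
# specialisations of functional relations, and invariant under the whole monodromy group

Let `Y j`, `j` in a finite set `κ`, be the period matrices of arbitrary families of smooth projective varieties over a
connected open subset `U` of the affine space with coordinates indexed by the finite set `X` (rows: algebraic de Rham
side, columns: Betti side, so that analytic continuation multiplies `Y` by elements `g` of the monodromy group on the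
right). Several fibres of the same family are included: `U` is then a product and `Y j` depends on one of the factors.

We assume that the field of rational functions of `x` is algebraically closed in the field generated by the
coordinates and the periods (`RegularM`), that is that the Zariski closure of the monodromy group is connected. There is
no other condition: the monodromy group may be symplectic, orthogonal, special linear (unitary), exceptional, not
semisimple (families of mixed motives, for instance 1-motives, or polylogarithms), or smaller than the derived group of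
the Mumford-Tate group.

Then there are bounds `ω T → ∞` such that, at all points with coordinates in number fields of degree at most `ω T` and
height at most `T` outside few hypersurfaces of small degree, all relations between the periods of the fibre of degree
at most `ω T` whose coefficients are combinations of arbitrary given complex constants `ξ` (for instance of the powers of
`2 π i`, or of the monomials in the periods of a fixed motive) with integral coefficients in the number field of size at most
`T ^ ω T` are specialisations of relations between the functions `Y`; so they remain true if the period matrix is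
multiplied by any element of the monodromy group and of its Zariski closure.
-/

set_option autoImplicit false

open Filter NumberField Pool.Agent.Q311.MV
open Pool.Agent.Y119.PLM (MT Ix IsMon GalT mon_mem vt pe)
open Pool.Agent.Y890.MV (InnerM RegularM evM)
open Pool.Agent.Y890.SP (Qbar)

namespace Pool.Agent.Results.MP_77d3f5_ag.MonodromyInvariantRelations

/-- the entries of the matrices as functions -/
def entries {X κ : Type} {n : κ → ℕ} (Y : (X → ℂ) → MT n) (i : Ix n) (x : X → ℂ) : ℂ := Y x i.1 i.2.1 i.2.2

/-- Let `P` be a polynomial of degree at most `k` in each variable, with coefficients of the form `∑ a, ξ a * c a`, `c a`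
integers of `K` with all conjugates at most `T ^ k`, which vanishes at `Y s`. Then
(1) there is a polynomial `F` with coefficients of the form `∑ a, ξ a * G a`, `G a` polynomials in `x` with algebraic
coefficients, of degree at most `k` in each variable, with `F (x, Y x) = 0` for all `x` in `U` and `F (s, ·) = P`;
(2) `P` vanishes at `Y s * g` for all `g` such that all relations between the functions `Y` over `ℂ[x]` are relations
between the functions `Y g` (the group `GalT U Y`). -/
def Good {X κ : Type} [Fintype X] {n : κ → ℕ} (U : Set (X → ℂ)) (Y : (X → ℂ) → MT n) (k : ℕ) (K : Type)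
    [Field K] [NumberField K] (io : K →+* ℂ) (ξ : Fin k → ℂ) (T : ℝ) (s : X → ℂ) : Prop :=
  ∀ P : MvPolynomial (Ix n) ℂ, (∀ y, P.degreeOf y ≤ k) →
    (∀ m, ∃ c : Fin k → 𝓞 K, (∀ a (φ : K →+* ℂ), ‖φ (c a : K)‖ ≤ T ^ k) ∧ P.coeff m = ∑ a, ξ a * io (c a : K)) →
    MvPolynomial.eval (fun i => entries Y i s) P = 0 →
    (∃ F : MvPolynomial (Ix n) (MvPolynomial X ℂ), (∀ x ∈ U, evM (entries Y) x F = 0) ∧
      MvPolynomial.map (MvPolynomial.eval s) F = P ∧ (∀ y, F.degreeOf y ≤ k) ∧
      ∀ m, ∃ G : Fin k → MvPolynomial X Qbar,
        F.coeff m = ∑ a, MvPolynomial.C (ξ a) * MvPolynomial.map (algebraMap Qbar ℂ) (G a)) ∧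
    ∀ g ∈ GalT U Y, pe P (Y s * g) = 0

/-- the points with coordinates in `K` of height at most `T`, of norm at most `k` and at distance at least `1 / k` from the
complement of `U`, which are not good -/
def Exceptional {X κ : Type} [Fintype X] {n : κ → ℕ} (U : Set (X → ℂ)) (Y : (X → ℂ) → MT n)
    (k : ℕ) (K : Type) [Field K] [NumberField K] (io : K →+* ℂ) (ξ : Fin k → ℂ) (T : ℝ) : Set (X → K) :=
  {s | (∀ j, Y120.HtLe K T (s j)) ∧ (fun j => io (s j)) ∈ InnerM U k ∧ ¬ Good U Y k K io ξ T (fun j => io (s j))}

/-- Let `U` be a connected open subset of `ℂ ^ X` and let `Y j` be square matrices of analytic functions on `U` such that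
`ℂ(x)` is algebraically closed in the field generated by `x` and the entries. The matrices `g` such that some analytic
continuation of `Y` along a chain of connected sets which returns to `U` is `Y g` (`IsMon`) belong to `GalT U Y`, and there
is `ω → ∞` such that for all large `T`, all number fields `K` of degree at most `ω T`, all embeddings and all complex
numbers `ξ a`, `a < ω T`: the exceptional points lie on at most `T ^ (1 / ω T)` hypersurfaces of degree at most
`T ^ (1 / ω T)`, and there are at most `T ^ (1 / ω T) * N ^ (|X| - 1)` of them, `N` being the number of elements of `K` of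
height at most `T`. -/
theorem result {X κ : Type} [Fintype X] [DecidableEq X] [Nonempty X] [Fintype κ] (n : κ → ℕ) (U : Set (X → ℂ))
    (hU : IsPreconnected U) (hUo : IsOpen U) (hne : U.Nonempty) (Y : (X → ℂ) → MT n)
    (hY : ∀ j a b, AnalyticOnNhd ℂ (fun x => Y x j a b) U) (hreg : RegularM U (entries Y)) :
    (∀ g, IsMon U Y g → g ∈ GalT U Y) ∧
      ∃ (ω : ℝ → ℕ) (T₀ : ℝ), Tendsto ω atTop atTop ∧ Monotone ω ∧ ∀ T, T₀ ≤ T → 0 < ω T ∧
        ∀ (K : Type) [Field K] [NumberField K], Module.finrank ℚ K ≤ ω T → ∀ (io : K →+* ℂ) (ξ : Fin (ω T) → ℂ),
          Y124.Cov ⌊T ^ ((ω T : ℝ)⁻¹)⌋₊ ⌊T ^ ((ω T : ℝ)⁻¹)⌋₊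
            ((fun (s : X → K) j => io (s j)) '' Exceptional U Y (ω T) K io ξ T) ∧
          (Exceptional U Y (ω T) K io ξ T).Finite ∧
          ((Exceptional U Y (ω T) K io ξ T).ncard : ℝ) ≤
            T ^ ((ω T : ℝ)⁻¹) * ({x : K | Y120.HtLe K T x}.ncard : ℝ) ^ (Fintype.card X - 1) := by
  classical
  refine ⟨fun g hg => mon_mem hU hY hg, ?_⟩
  obtain ⟨ω, T₀, h1, h2, h3⟩ := spec_main hU hUo hne (f := entries Y) (fun i => hY _ _ _) hreg
  refine ⟨ω, T₀, h1, h2, fun T hT => ⟨(h3 T hT).1, fun K _ _ hK io ξ => ?_⟩⟩
  obtain ⟨h4, h5, h6⟩ := (h3 T hT).2 K hK io ξ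
  have hpos := (h3 T hT).1
  have hsub : Exceptional U Y (ω T) K io ξ T ⊆
      {s : X → K | (∀ j, Y120.HtLe K T (s j)) ∧ (fun j => io (s j)) ∈ InnerM U (ω T) ∧
            ¬ SpecAt U (entries Y) (ω T) K io ξ T (fun j => io (s j))} := by
    rintro s ⟨hs1, hs2, hs3⟩
    refine ⟨hs1, hs2, fun hf => hs3 fun P hP hc hv => ?_⟩
    obtain ⟨F, hF1, hF2, hF3, hF4⟩ := hf P hP hc hv
    refine ⟨⟨F, hF1, hF2, hF3, hF4⟩, fun g hg => ?_⟩
    have h7 := hg F hF1 _ (Pool.Agent.Y890.MV.innerM_sub U hpos hs2)
    rw [← hF2]
    unfold pe
    rw [MvPolynomial.eval_map]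
    exact h7
  exact ⟨h4.mono le_rfl le_rfl (Set.image_mono hsub), h5.subset hsub,
    le_trans (by exact_mod_cast Set.ncard_le_ncard hsub h5) h6⟩

end Pool.Agent.Results.MP_77d3f5_ag.MonodromyInvariantRelations
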